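import Mathlib
import Pool.Agent.K6.H22.AL.Asy
import Pool.Agent.K6.H22.AL.NormP

set_option autoImplicit false

/-!
# MP_b30443_co: progression-free sets defined by polynomial equations of bounded degree

Let `p ≥ k ≥ 3`, and let `A ⊆ F_p^n` be the set of the common zeros of polynomials of degree at most
`d`; their number is arbitrary. Suppose that `A` contains no nontrivial `k`-term progression.

If `d < k` then `|A| ≤ (6 d log p · p^(1 - 2 / (d (d + 1))))^n`, and the exponent of `p` is optimal:
sums of norm forms of the degrees `1, …, d` give sets of this kind with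
`p^((1 - 2 / (d (d + 1))) n)` elements. So the growth rate of these sets is
`p^(1 - 2 / (d (d + 1)) + o(1))` for `p → ∞`; for `d = k - 1` it is `p^(1 - 2 / (k (k - 1)) + o(1))`.

If `d ≥ k` then `|A| ≤ (6 (k - 1) log p · p^(1 - 2 / ((k - 1) (2 d - k + 2))))^n`. So for every `d`
the growth rate is at most `p^(1 - c)` for large `p`, where `c > 0` depends on `k` and `d` only.

Both bounds hold up to the factor `T` for unions of `T` such sets, for instance for sets which are
given by arbitrarily many equations and by any condition on the values of `u` further polynomials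
(`T = p^u`).

Proof. Let `m` be the smaller one of `k - 1` and `d`. Since the restrictions of the equations to a
line have degree at most `d`, there is no `v ≠ 0` with `x, x + v, …, x + m v ∈ A`. Let `g` be `s`
random elements of the span of the given polynomials. The set of the common zeros of the `g`
consists of `A` and at most `p^(n - s)` other points. If `A` is large then interpolation on a grid
gives a polynomial `G` of small degree which is zero at the other points but not on all of `A`; let
`x ∈ A`, `G(x) ≠ 0`. For a polynomial `g` with `g(x) = 0` the `m` conditions `g(x + l v) = 0`,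
`1 ≤ l ≤ m`, on `v` are equivalent to `m` equations of the degrees `d, d - 1, …, d - m + 1`. By the
argument of Chevalley and Warning the sum of `G(x + v) ⋯ G(x + m v)` over the solutions `v` of all
these equations is zero if `s (d + (d - 1) + … + (d - m + 1))` is a bit smaller than `n`. But all
terms with `v ≠ 0` are zero, since one of the points `x + l v` is not in `A`, and the term with
`v = 0` is `G(x)^m`.
-/

namespace Pool.Agent.Results.MP_b30443_co.AlgebraicSets

open Finset

/-- `A ⊆ F_p^n` contains no nontrivial `k`-term progression `x, x + y, …, x + (k - 1) y`, `y ≠ 0`. -/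
def APFree (k : ℕ) {p n : ℕ} (A : Set (Fin n → ZMod p)) : Prop :=
  ∀ x y : Fin n → ZMod p, (∀ i : ℕ, i < k → x + i • y ∈ A) → y = 0

/-- `A ⊆ F_p^n` is the set of the common zeros of some polynomials (any number of them) of total
degree at most `d`. -/
def ZeroSet (d : ℕ) {p n : ℕ} (A : Set (Fin n → ZMod p)) : Prop :=
  ∃ S : Set (MvPolynomial (Fin n) (ZMod p)), (∀ f ∈ S, f.totalDegree ≤ d) ∧
    A = {x | ∀ f ∈ S, MvPolynomial.eval x f = 0}

theorem single {d p k n : ℕ} [Fact p.Prime] (hk : 3 ≤ k) (hkp : k ≤ p) (hd : 1 ≤ d)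
    (A : Set (Fin n → ZMod p)) (hA : ZeroSet d A) (hap : APFree k A) (m D : ℕ)
    (hm : m = min (k - 1) d) (hD : D = ∑ j ∈ range m, (d - j)) :
    (A.ncard : ℝ) ≤ (6 * m * Real.log p * (p : ℝ) ^ (1 - 1 / (D : ℝ))) ^ n := by
  classical
  obtain ⟨S, hS, rfl⟩ := hA
  set A : Set (Fin n → ZMod p) := {x | ∀ f ∈ S, MvPolynomial.eval x f = 0} with hA
  have h1 : ∀ z : {z : Fin n → ZMod p // z ∉ A}, ∃ f ∈ S, MvPolynomial.eval z.1 f ≠ 0 := by
    rintro ⟨z, hz⟩
    by_contra h
    push Not at h
    exact hz h
  choose f hfS hfz using h1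
  have h2 : ∀ x, x ∈ A ↔ ∀ z, MvPolynomial.eval x (f z) = 0 := by
    intro x
    constructor
    · intro hx z
      exact hx (f z) (hfS z)
    · intro h
      by_contra hx
      exact hfz ⟨x, hx⟩ (h ⟨x, hx⟩)
  have hinj : ∀ a b : ℕ, a < p → b < p → (a : ZMod p) = b → a = b := by
    intro a b ha hb hab
    have h3 := (ZMod.natCast_eq_natCast_iff' a b p).1 hab
    rwa [Nat.mod_eq_of_lt ha, Nat.mod_eq_of_lt hb] at h3
  rw [Set.ncard_eq_toFinset_card']
  apply Pool.Agent.K6.H22.AL.bound (by omega) (by omega) (by omega) hD A.toFinset f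
    (fun z => hS _ (hfS z)) (by intro x; rw [Set.mem_toFinset]; exact h2 x)
    (fun l : Fin m => (((l : ℕ) + 1 : ℕ) : ZMod p))
  · intro a b hab
    have := hinj _ _ (by have := a.2; omega) (by have := b.2; omega) hab
    apply Fin.ext
    omega
  · intro l h0
    have h3 : (((l : ℕ) + 1 : ℕ) : ZMod p) = ((0 : ℕ) : ZMod p) := by
      rw [Nat.cast_zero]; exact h0
    have := hinj _ _ (by have := l.2; omega) (by omega) h3
    omega
  · intro x v hx h
    rw [Set.mem_toFinset] at hx
    have hpts : ∀ i : ℕ, i ≤ m → x + (i : ZMod p) • v ∈ A := by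
      intro i hi
      rcases i with _ | i
      · rw [Nat.cast_zero, zero_smul, add_zero]
        exact hx
      · have := h ⟨i, by omega⟩
        rwa [Set.mem_toFinset] at this
    apply hap x v
    intro i hi
    rw [← Nat.cast_smul_eq_nsmul (ZMod p) i v]
    by_cases hdk : k - 1 ≤ d
    · exact hpts i (by omega)
    · -- the restrictions to the line are zero
      rw [h2]
      intro z
      rw [← Pool.Agent.K6.H22.AL.eval_onLine]
      have hzero : Pool.Agent.K6.H22.AL.onLine x v (f z) = 0 := by
        apply Polynomial.eq_zero_of_natDegree_lt_card_of_eval_eq_zero' _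
          ((range (m + 1)).image fun i : ℕ => (i : ZMod p))
        · intro s hs
          obtain ⟨j, hj, rfl⟩ := mem_image.1 hs
          rw [Pool.Agent.K6.H22.AL.eval_onLine]
          exact (h2 _).1 (hpts j (by rw [mem_range] at hj; omega)) z
        · rw [card_image_of_injOn, card_range]
          · have := Pool.Agent.K6.H22.AL.natDegree_onLine x v (f z) (hS _ (hfS z))
            omega
          · intro a ha b hb hab
            rw [coe_range, Set.mem_Iio] at ha hb
            exact hinj a b (by omega) (by omega) hab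
      rw [hzero, Polynomial.eval_zero]

/-- Let `p` be a prime, `3 ≤ k ≤ p` and `d ≥ 1`.

(1) Let `A ⊆ F_p^n` be a union of `T` sets, each of which is the set of the common zeros of some
polynomials of degree at most `d`, and suppose that `A` contains no nontrivial `k`-term
progression. If `d < k` then `|A| ≤ T (6 d log p · p^(1 - 2 / (d (d + 1))))^n`, and if `k ≤ d` then
`|A| ≤ T (6 (k - 1) log p · p^(1 - 2 / ((k - 1) (2 d - k + 2))))^n`.

(2) If `d < k` and `d (d + 1) / 2` divides `n` then there is a set of the common zeros of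
polynomials of degree at most `d` in `F_p^n` which contains no nontrivial progression with `d + 1`
terms (so none with `k` terms) and has at least `p^((1 - 2 / (d (d + 1))) n)` elements. -/
theorem result (p k d : ℕ) [Fact p.Prime] (hk : 3 ≤ k) (hkp : k ≤ p) (hd : 1 ≤ d) :
    (∀ (n T : ℕ) (A : Set (Fin n → ZMod p)), APFree k A →
      (∃ B : Fin T → Set (Fin n → ZMod p), (∀ i, ZeroSet d (B i)) ∧ A = ⋃ i, B i) →
      (d < k → (A.ncard : ℝ) ≤
        T * (6 * d * Real.log p * (p : ℝ) ^ (1 - 2 / ((d : ℝ) * (d + 1)))) ^ n) ∧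
      (k ≤ d → (A.ncard : ℝ) ≤
        T * (6 * (k - 1) * Real.log p *
          (p : ℝ) ^ (1 - 2 / (((k : ℝ) - 1) * (2 * d - k + 2)))) ^ n)) ∧
    (d < k → ∀ n : ℕ, d * (d + 1) ∣ 2 * n → ∃ A : Set (Fin n → ZMod p), ZeroSet d A ∧
      APFree (d + 1) A ∧ (p : ℝ) ^ ((1 - 2 / ((d : ℝ) * (d + 1))) * n) ≤ A.ncard) := by
  classical
  refine ⟨?_, ?_⟩
  · rintro n T A hap ⟨B, hB, rfl⟩
    have hsum : ∀ m : ℕ, 2 * ∑ j ∈ range m, ((d : ℤ) - j) = m * (2 * d - m + 1) := by
      intro m
      induction m with
      | zero => simp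
      | succ m ih => rw [sum_range_succ, mul_add, ih]; push_cast; ring
    have hsumN : ∀ m : ℕ, m ≤ d → (2 : ℝ) * ((∑ j ∈ range m, (d - j) : ℕ) : ℝ) =
        m * (2 * d - m + 1) := by
      intro m hm
      have h1 : ((∑ j ∈ range m, (d - j) : ℕ) : ℤ) = ∑ j ∈ range m, ((d : ℤ) - j) := by
        rw [Nat.cast_sum]
        refine sum_congr rfl fun j hj => ?_
        rw [mem_range] at hj
        rw [Nat.cast_sub (by omega)]
      have h2 := hsum m
      rw [← h1] at h2
      exact_mod_cast h2
    have h1 : ∀ K : ℝ, (∀ i, ((B i).ncard : ℝ) ≤ K) → ((⋃ i, B i).ncard : ℝ) ≤ T * K := by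
      intro K hK
      have h2 : (⋃ i, B i).ncard ≤ ∑ i, (B i).ncard := by
        have h3 : (⋃ i, B i).toFinset = univ.biUnion fun i => (B i).toFinset := by
          ext x
          simp
        rw [Set.ncard_eq_toFinset_card', h3]
        refine card_biUnion_le.trans (le_of_eq ?_)
        exact sum_congr rfl fun i _ => (Set.ncard_eq_toFinset_card' (B i)).symm
      calc ((⋃ i, B i).ncard : ℝ) ≤ ∑ i, ((B i).ncard : ℝ) := by exact_mod_cast h2
        _ ≤ ∑ i : Fin T, K := sum_le_sum fun i _ => hK i
        _ = _ := by rw [sum_const, card_univ, Fintype.card_fin, nsmul_eq_mul]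
    have hapB : ∀ i, APFree k (B i) := fun i x y h =>
      hap x y fun j hj => Set.mem_iUnion.2 ⟨i, h j hj⟩
    refine ⟨?_, ?_⟩
    · intro hdk
      apply h1
      intro i
      have h3 := single hk hkp hd (B i) (hB i) (hapB i) d _ (by omega) rfl
      have h4 : (1 : ℝ) / ((∑ j ∈ range d, (d - j) : ℕ) : ℝ) = 2 / ((d : ℝ) * (d + 1)) := by
        have h5 := hsumN d le_rfl
        have h6 : (0 : ℝ) < d := by exact_mod_cast hd
        have h7 : ((∑ j ∈ range d, (d - j) : ℕ) : ℝ) = d * (d + 1) / 2 := by linarith
        rw [h7]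
        field_simp
      rw [h4] at h3
      exact h3
    · intro hkd
      apply h1
      intro i
      have h3 := single hk hkp hd (B i) (hB i) (hapB i) (k - 1) _ (by omega) rfl
      have hk1 : ((k - 1 : ℕ) : ℝ) = (k : ℝ) - 1 := by
        rw [Nat.cast_sub (by omega)]; simp
      have h4 : (1 : ℝ) / ((∑ j ∈ range (k - 1), (d - j) : ℕ) : ℝ) =
          2 / (((k : ℝ) - 1) * (2 * d - k + 2)) := by
        have h5 := hsumN (k - 1) (by omega)
        rw [hk1] at h5
        have h6 : (3 : ℝ) ≤ k := by exact_mod_cast hk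
        have h8 : (k : ℝ) ≤ d := by exact_mod_cast hkd
        have h7 : ((∑ j ∈ range (k - 1), (d - j) : ℕ) : ℝ) = (k - 1) * (2 * d - k + 2) / 2 := by
          linarith
        rw [h7]
        have h9 : (0 : ℝ) < (k : ℝ) - 1 := by linarith
        have h10 : (0 : ℝ) < 2 * (d : ℝ) - k + 2 := by linarith
        field_simp
      rw [h4, hk1] at h3
      exact h3
  · intro hdk n hn
    obtain ⟨q, hq⟩ := hn
    obtain ⟨D, hD, f, hf1, hf2, hf3⟩ :=
      Pool.Agent.K6.H22.AL.exists_zeroSet (ZMod p) d q hd
    have hnq : n = q * D := by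
      have : 2 * n = 2 * (q * D) := by
        rw [hq, ← hD]; ring
      omega
    subst hnq
    refine ⟨{x | ∀ j, MvPolynomial.eval x (f j) = 0}, ⟨Set.range f, ?_, ?_⟩, ?_, ?_⟩
    · rintro _ ⟨j, rfl⟩
      exact hf1 j
    · ext x
      simp
    · intro x y h
      by_contra hy
      have hcard := hf3 x y hy ((range (d + 1)).image fun i : ℕ => (i : ZMod p)) (by
        intro s hs
        obtain ⟨i, hi, rfl⟩ := mem_image.1 hs
        have h1 := h i (by rw [mem_range] at hi; omega)
        rw [← Nat.cast_smul_eq_nsmul (ZMod p) i y] at h1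
        exact h1)
      rw [card_image_of_injOn, card_range] at hcard
      · omega
      · intro a ha b hb hab
        rw [coe_range, Set.mem_Iio] at ha hb
        have h1 := (ZMod.natCast_eq_natCast_iff' a b p).1 hab
        rwa [Nat.mod_eq_of_lt (by omega), Nat.mod_eq_of_lt (by omega)] at h1
    · have hp0 : (0 : ℝ) < p := by
        have : 0 < p := by omega
        exact_mod_cast this
      have hd0 : (0 : ℝ) < d := by exact_mod_cast hd
      have hD1 : 1 ≤ D := by nlinarith
      have hDr : (2 : ℝ) * D = d * (d + 1) := by exact_mod_cast hD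
      have hDpos : (0 : ℝ) < D := by exact_mod_cast hD1
      rw [ZMod.card] at hf2
      have h1 : ((p ^ ((D - 1) * q) : ℕ) : ℝ) ≤
          ({x : Fin (q * D) → ZMod p | ∀ j, MvPolynomial.eval x (f j) = 0}.ncard : ℝ) := by
        exact_mod_cast hf2
      refine le_trans (le_of_eq ?_) h1
      push_cast
      rw [← Real.rpow_natCast]
      congr 1
      push_cast [Nat.cast_sub hD1]
      rw [← hDr]
      field_simp

end Pool.Agent.Results.MP_b30443_co.AlgebraicSets
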