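import Pool.Agent.K6.H46.LAP.Count
import Pool.Agent.K6.H46.LAP.Small
import Pool.Agent.Results.MP_b30443_co.BlockSymmetric
import Pool.Agent.Results.MP_b30443_co.LineFree

/-!
# Intervals do not give the growth rate, for any `k ≥ 5` and any prime `p ≥ k`

`λ_{k,p}` is the exponential growth rate of the largest subsets of `F_p^n` without nontrivial
`k`-term progressions. The sets of vectors in which each letter of an interval of
`p - ⌊p / h⌋` letters, `h = ⌊(k + 1) / 2⌋`, occurs equally often contain no `k`-term progression,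
hence `λ_{k,p} ≥ p - ⌊p / h⌋`. For `k ≥ 5` this is improved for each prime `p ≥ k`, by at least `δ p`
with `δ > 0` that depends on `k` only; in particular the constant `1 - 1 / h` is not optimal.

For large `p` the new sets are the blocks of `Pool.Agent.K6.H46.LAP.Set`, for the other `p > k` those of
`Pool.Agent.K6.H46.LAP.Small`, and for `p = k` the theorem is the bound of the starting file
`LineFree`.
-/

set_option autoImplicit false

namespace Pool.Agent.Results.MP_b30443_co.IntervalBoundNotSharp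

open Finset

/-- `A ⊆ F_p^n` contains no nontrivial `k`-term progression `x, x+y, …, x+(k-1)y` with `y ≠ 0`. -/
def APFree (k p n : ℕ) (A : Finset (Fin n → ZMod p)) : Prop :=
  ∀ x y : Fin n → ZMod p, (∀ i : ℕ, i < k → x + i • y ∈ A) → y = 0

/-- `r_k(F_p^n)`: the largest size of a subset of `F_p^n` without nontrivial `k`-term
progressions. -/
noncomputable def r (k p n : ℕ) : ℕ :=
  sSup {m : ℕ | ∃ A : Finset (Fin n → ZMod p), APFree k p n A ∧ A.card = m}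

/-- `λ_{k,p} = sup_{n ≥ 1} r_k(F_p^n)^{1/n}`. -/
noncomputable def lam (k p : ℕ) : ℝ :=
  ⨆ n : ℕ, (r k p (n + 1) : ℝ) ^ (1 / ((n : ℝ) + 1))

lemma lam_eq (k p : ℕ) : lam k p = BlockSymmetric.lam k p := rfl

/-- each prime separately -/
lemma strict {k p : ℕ} [Fact p.Prime] (hk : 5 ≤ k) (hkp : k ≤ p) :
    ((p - p / ((k + 1) / 2) : ℕ) : ℝ) < lam k p := by
  have hp := (Fact.out : p.Prime)
  obtain ⟨Q, hQ⟩ : ∃ Q, (k + 1) / 2 = Q + 1 := ⟨(k + 1) / 2 - 1, by omega⟩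
  rw [hQ]
  rcases lt_or_ge (2 * Q + 1) p with h | h
  · obtain ⟨M, S, hS1, hS2⟩ := K6.H46.LAP.Small.exists_set p Q (by omega) h
    have hbal : ¬ BlockSymmetric.Balanced k p (M + 1) S := by
      rintro ⟨w, hw1, hw2, hw3⟩
      exact hS1 ⟨w, hw1, fun q hq => ⟨(hw2 q hq).1, fun i hi => (hw2 q hq).2 i (by omega)⟩,
        fun i hi => hw3 i (by omega)⟩
    have h1 := BlockSymmetric.le_M hbal
    have h2 := BlockSymmetric.M_le_lam (p := p) k (M + 1) (by omega) (by omega)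
    have h3 : ((p - p / (Q + 1) : ℕ) : ℝ) ^ (M + 1) < lam k p ^ (M + 1) := by
      rw [lam_eq]
      refine lt_of_lt_of_le ?_ h2
      exact_mod_cast lt_of_lt_of_le hS2 h1
    refine lt_of_pow_lt_pow_left₀ (M + 1) ?_ h3
    rw [lam_eq]
    exact BlockSymmetric.lam_nonneg k
  · have hpk : p = k := by omega
    have hpQ : p = 2 * Q + 1 := by omega
    have hdiv : p / (Q + 1) = 1 := by
      rw [hpQ]
      apply Nat.div_eq_of_lt_le <;> omega
    rw [hdiv]
    obtain ⟨-, h1, h2⟩ := LineFree.result p (by omega)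
    have h3 : lam k p = LineFree.lam p p := by rw [← hpk]; rfl
    rw [h3]
    refine lt_of_le_of_lt ?_ (h2.trans_le h1)
    have hp5 : (5 : ℝ) ≤ p := by
      have : 5 ≤ p := by omega
      exact_mod_cast this
    have hp0 : (0 : ℝ) < p := by linarith
    have hp1 : (0 : ℝ) < (p : ℝ) - 1 := by linarith
    rw [Nat.cast_sub (by omega), Nat.cast_one]
    -- `p ^ 2 ≤ (p / (p - 1)) ^ (p (p - 1))`
    have e1 : (2 : ℝ) ≤ ((p : ℝ) / (p - 1)) ^ (p - 1) := by
      have e2 := one_add_mul_le_pow (a := 1 / ((p : ℝ) - 1)) (by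
        have : 0 ≤ 1 / ((p : ℝ) - 1) := by positivity
        linarith) (p - 1)
      rw [Nat.cast_sub (by omega), Nat.cast_one, mul_one_div_cancel hp1.ne'] at e2
      have e3 : 1 + 1 / ((p : ℝ) - 1) = p / (p - 1) := by
        field_simp
        ring
      rw [e3] at e2
      linarith
    have e2 : (p : ℝ) ^ 2 ≤ ((p : ℝ) / (p - 1)) ^ ((p - 1) * p) := by
      have e3 : p ^ 2 ≤ 2 ^ p := by
        have : ∀ n : ℕ, 4 ≤ n → n ^ 2 ≤ 2 ^ n := by
          intro n hn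
          induction n, hn using Nat.le_induction with
          | base => norm_num
          | succ n hn ih =>
            rw [pow_succ 2 n]
            nlinarith
        exact this p (by omega)
      have e4 : (p : ℝ) ^ 2 ≤ 2 ^ p := by exact_mod_cast e3
      refine e4.trans ?_
      rw [pow_mul]
      gcongr
    have e3 : (p : ℝ) ^ (2 / ((p : ℝ) * (p - 1))) ≤ (p : ℝ) / (p - 1) := by
      have e4 : (((p : ℝ) ^ 2)) ^ (1 / ((p : ℝ) * (p - 1))) ≤
          (((p : ℝ) / (p - 1)) ^ ((p - 1) * p)) ^ (1 / ((p : ℝ) * (p - 1))) := by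
        apply Real.rpow_le_rpow (by positivity) e2 (by positivity)
      have e5 : (((p : ℝ) ^ 2)) ^ (1 / ((p : ℝ) * (p - 1))) = (p : ℝ) ^ (2 / ((p : ℝ) * (p - 1))) := by
        rw [← Real.rpow_natCast, ← Real.rpow_mul hp0.le]
        congr 1
        push_cast
        ring
      have e6 : (((p : ℝ) / (p - 1)) ^ ((p - 1) * p)) ^ (1 / ((p : ℝ) * (p - 1))) =
          (p : ℝ) / (p - 1) := by
        rw [← Real.rpow_natCast, ← Real.rpow_mul (by positivity)]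
        rw [Nat.cast_mul, Nat.cast_sub (by omega), Nat.cast_one]
        have e7 : ((p : ℝ) - 1) * p * (1 / (p * (p - 1))) = 1 := by
          field_simp
        rw [e7, Real.rpow_one]
      rw [e5, e6] at e4
      exact e4
    rw [Real.rpow_sub hp0, Real.rpow_one, le_div_iff₀ (by positivity)]
    calc ((p : ℝ) - 1) * (p : ℝ) ^ (2 / ((p : ℝ) * (p - 1)))
        ≤ ((p : ℝ) - 1) * (p / (p - 1)) := by gcongr
      _ = p := by field_simp

lemma large_primes (Q : ℕ) (hQ : 2 ≤ Q) : ∃ (d P : ℕ) (γ : ℝ), 0 < γ ∧ ∀ p k : ℕ, p.Prime →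
    P ≤ p → 2 * Q + 1 ≤ k → ((1 - 1 / ((Q + 1 : ℕ) : ℝ)) ^ (d + 1) + γ) * (p : ℝ) ^ (d + 1) ≤
      lam k p ^ (d + 1) := by
  classical
  obtain ⟨N, hN⟩ : ∃ N, N = 8 * (Q + 2) ^ 2 := ⟨_, rfl⟩
  obtain ⟨L, hL⟩ : ∃ L, L = (2 * Q).factorial := ⟨_, rfl⟩
  obtain ⟨M, hM⟩ : ∃ M, M = Fintype.card (Fin (2 * N) → K6.H46.LAP.Lab Q) := ⟨_, rfl⟩
  have hN0 : 0 < N := by rw [hN]; positivity
  have hL0 : 0 < L := by rw [hL]; exact Nat.factorial_pos _
  have hNR : (0 : ℝ) < N := by exact_mod_cast hN0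
  have hLR : (0 : ℝ) < L := by exact_mod_cast hL0
  refine ⟨M, 4 * N * L, 1 / (2 * N) * (1 / (4 * N * L)) ^ M, by positivity, ?_⟩
  intro p k hp hPp hk
  have : Fact p.Prime := ⟨hp⟩
  obtain ⟨e, he⟩ : ∃ e : Fin M → Fin (2 * N) → K6.H46.LAP.Lab Q, Function.Surjective e := by
    rw [hM]
    exact ⟨(Fintype.equivFin _).symm, (Fintype.equivFin _).symm.surjective⟩
  obtain ⟨ω, hω⟩ : ∃ ω, ω = p / N := ⟨_, rfl⟩
  obtain ⟨Y, hY⟩ : ∃ Y, Y = ω / L := ⟨_, rfl⟩
  have h4N : 4 * N ≤ p := le_trans (Nat.le_mul_of_pos_right _ hL0) hPp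
  have hω1 : 1 ≤ ω := by
    rw [hω, Nat.le_div_iff_mul_le hN0]
    omega
  have hωN : N * ω ≤ p := by rw [hω]; exact Nat.mul_div_le _ _
  have hωN2 : p < N * ω + N := by
    have := Nat.lt_div_mul_add (a := p) hN0
    rw [← hω] at this
    rw [mul_comm N ω]
    exact this
  have hZ : p / ω < 2 * N := by
    apply Nat.div_lt_of_lt_mul
    have : N * 1 ≤ N * ω := Nat.mul_le_mul_left N hω1
    have h2 : ω * (2 * N) = N * ω + N * ω := by ring
    omega
  have hYL : L * Y ≤ ω := by rw [hY]; exact Nat.mul_div_le _ _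
  have hYL2 : ω < L * Y + L := by
    have := Nat.lt_div_mul_add (a := ω) hL0
    rw [← hY] at this
    rw [mul_comm L Y]
    exact this
  have hf : L < p := by
    have : 1 * L ≤ 4 * N * L := Nat.mul_le_mul_right L (by omega)
    have h2 : 2 * L ≤ 4 * N * L := Nat.mul_le_mul_right L (by omega)
    omega
  rw [hL] at hf hYL
  rw [hN] at hωN
  have hbal := K6.H46.LAP.not_balanced hQ hω1 e he hZ hωN hYL hf
    (univ.filter (fun x : Fin (M + 1) → ZMod p => K6.H46.LAP.Corn ω Y x ∨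
      K6.H46.LAP.Body ω Y e x)) (fun x hx => (mem_filter.1 hx).2)
  have hcard := K6.H46.LAP.card_set hQ hω1 e hωN hYL hf
  rw [← hL] at hf hYL
  rw [← hN] at hωN
  have hbal' : ¬ BlockSymmetric.Balanced k p (M + 1)
      (univ.filter (fun x : Fin (M + 1) → ZMod p => K6.H46.LAP.Corn ω Y x ∨
      K6.H46.LAP.Body ω Y e x)) := by
    rintro ⟨w, hw1, hw2, hw3⟩
    exact hbal ⟨w, hw1, fun q hq => ⟨(hw2 q hq).1, fun i hi => (hw2 q hq).2 i (by omega)⟩,
      fun i hi => hw3 i (by omega)⟩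
  have h1 := BlockSymmetric.le_M hbal'
  rw [hcard] at h1
  have h2 := BlockSymmetric.M_le_lam (p := p) k (M + 1) (by omega) (by omega)
  have h3 : (ω : ℝ) * (Y : ℝ) ^ M + ((p - p / (Q + 1) : ℕ) : ℝ) ^ (M + 1) ≤
      BlockSymmetric.M k p (M + 1) := by exact_mod_cast h1
  rw [lam_eq]
  refine le_trans ?_ (h3.trans h2)
  have hp0 : (0 : ℝ) < p := by exact_mod_cast hp.pos
  have e1 : (p : ℝ) / (2 * N) ≤ ω := by
    rw [div_le_iff₀ (by positivity)]
    have : (p : ℝ) < N * ω + N := by exact_mod_cast hωN2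
    have h5 : (4 : ℝ) * N ≤ p := by exact_mod_cast h4N
    nlinarith
  have e2 : (p : ℝ) / (4 * N * L) ≤ Y := by
    rw [div_le_iff₀ (by positivity)]
    have h5 : (ω : ℝ) < L * Y + L := by exact_mod_cast hYL2
    have h6 : (4 : ℝ) * N * L ≤ p := by exact_mod_cast hPp
    rw [div_le_iff₀ (by positivity)] at e1
    nlinarith
  have e3 : (1 - 1 / ((Q + 1 : ℕ) : ℝ)) * p ≤ ((p - p / (Q + 1) : ℕ) : ℝ) := by
    rw [Nat.cast_sub (Nat.div_le_self _ _), sub_mul, one_mul]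
    have h5 : ((p / (Q + 1) : ℕ) : ℝ) ≤ (p : ℝ) / ((Q + 1 : ℕ) : ℝ) := Nat.cast_div_le
    have h6 : 1 / ((Q + 1 : ℕ) : ℝ) * p = p / ((Q + 1 : ℕ) : ℝ) := by ring
    rw [h6]
    linarith
  have hc0 : (0 : ℝ) ≤ 1 - 1 / ((Q + 1 : ℕ) : ℝ) := by
    rw [sub_nonneg, div_le_one (by positivity)]
    have : 1 ≤ Q + 1 := by omega
    exact_mod_cast this
  calc ((1 - 1 / ((Q + 1 : ℕ) : ℝ)) ^ (M + 1) + 1 / (2 * N) * (1 / (4 * N * L)) ^ M) *
        (p : ℝ) ^ (M + 1)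
      = (p / (2 * N)) * (p / (4 * N * L)) ^ M + ((1 - 1 / ((Q + 1 : ℕ) : ℝ)) * p) ^ (M + 1) := by
        have e4 : (p : ℝ) / (4 * N * L) = 1 / (4 * N * L) * p := by ring
        rw [mul_pow, e4, mul_pow (1 / (4 * (N : ℝ) * L)), pow_succ (p : ℝ)]
        ring
    _ ≤ _ := by gcongr

/-- large primes -/
lemma uniform (k : ℕ) (hk : 5 ≤ k) : ∃ (δ : ℝ) (P : ℕ), 0 < δ ∧ ∀ p : ℕ, p.Prime → P ≤ p →
    ((p - p / ((k + 1) / 2) : ℕ) : ℝ) + δ * p ≤ lam k p := by
  obtain ⟨Q, hQ⟩ : ∃ Q, (k + 1) / 2 = Q + 1 := ⟨(k + 1) / 2 - 1, by omega⟩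
  obtain ⟨d, P, γ, hγ, hlarge⟩ := large_primes Q (by omega)
  obtain ⟨c, hc⟩ : ∃ c : ℝ, c = 1 - 1 / ((Q + 1 : ℕ) : ℝ) := ⟨_, rfl⟩
  have hc0 : 0 ≤ c := by
    rw [hc, sub_nonneg, div_le_one (by positivity)]
    have : 1 ≤ Q + 1 := by omega
    exact_mod_cast this
  obtain ⟨δ, hδ0, hδ⟩ : ∃ δ : ℝ, 0 < δ ∧ (c + δ) ^ (d + 1) ≤ c ^ (d + 1) + γ := by
    have hcont : ContinuousAt (fun t : ℝ => (c + t) ^ (d + 1)) 0 := by fun_prop
    have h1 : (fun t : ℝ => (c + t) ^ (d + 1)) 0 < c ^ (d + 1) + γ := by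
      simp only [add_zero]
      linarith
    have h2 := hcont.eventually (gt_mem_nhds h1)
    rw [Metric.eventually_nhds_iff] at h2
    obtain ⟨ε, hε, h3⟩ := h2
    refine ⟨ε / 2, by positivity, ?_⟩
    have h4 := @h3 (ε / 2) (by
      rw [Real.dist_eq, sub_zero, abs_of_pos (by positivity)]
      linarith)
    exact h4.le
  refine ⟨δ / 2, max P ⌈2 / δ⌉₊, by positivity, ?_⟩
  intro p hp hPp
  have : Fact p.Prime := ⟨hp⟩
  have hp0 : (0 : ℝ) < p := by exact_mod_cast hp.pos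
  have h1 := hlarge p k hp (le_trans (le_max_left _ _) hPp) (by omega)
  rw [← hc] at h1
  have h2 : ((c + δ) * p) ^ (d + 1) ≤ lam k p ^ (d + 1) := by
    rw [mul_pow]
    refine le_trans ?_ h1
    gcongr
  have h3 : (c + δ) * p ≤ lam k p := by
    rw [lam_eq] at h2 ⊢
    exact le_of_pow_le_pow_left₀ (by omega) (BlockSymmetric.lam_nonneg k) h2
  refine le_trans ?_ h3
  have h4 : 2 / δ ≤ p := by
    refine (Nat.le_ceil _).trans ?_
    exact_mod_cast (le_trans (le_max_right _ _) hPp)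
  rw [div_le_iff₀ hδ0] at h4
  rw [hQ, hc, Nat.cast_sub (Nat.div_le_self _ _)]
  have h5 : p < p / (Q + 1) * (Q + 1) + (Q + 1) := Nat.lt_div_mul_add (by omega)
  have h6 : (p : ℝ) ≤ ((p / (Q + 1) : ℕ) : ℝ) * ((Q + 1 : ℕ) : ℝ) + ((Q + 1 : ℕ) : ℝ) := by
    exact_mod_cast h5.le
  have hQ0 : (0 : ℝ) < ((Q + 1 : ℕ) : ℝ) := by positivity
  have h7 : (p : ℝ) / ((Q + 1 : ℕ) : ℝ) ≤ ((p / (Q + 1) : ℕ) : ℝ) + 1 := by
    rw [div_le_iff₀ hQ0]
    linarith
  have h8 : (1 - 1 / ((Q + 1 : ℕ) : ℝ) + δ) * p = p - p / ((Q + 1 : ℕ) : ℝ) + δ * p := by ring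
  rw [h8]
  linarith

/-- finitely many primes -/
lemma finite_part (k : ℕ) (hk : 5 ≤ k) (P : ℕ) : ∃ δ : ℝ, 0 < δ ∧ ∀ p : ℕ, p.Prime → k ≤ p →
    p < P → ((p - p / ((k + 1) / 2) : ℕ) : ℝ) + δ * p ≤ lam k p := by
  induction P with
  | zero => exact ⟨1, one_pos, fun p _ _ h => absurd h (Nat.not_lt_zero _)⟩
  | succ P ih =>
    obtain ⟨δ, hδ, h⟩ := ih
    by_cases hP : P.Prime ∧ k ≤ P
    · have : Fact P.Prime := ⟨hP.1⟩
      have hP0 : (0 : ℝ) < P := by exact_mod_cast hP.1.pos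
      have h1 := strict (p := P) hk hP.2
      refine ⟨min δ ((lam k P - ((P - P / ((k + 1) / 2) : ℕ) : ℝ)) / P),
        lt_min hδ (div_pos (by linarith) hP0), ?_⟩
      intro p hp hkp hpP
      rcases Nat.lt_succ_iff_lt_or_eq.1 hpP with h2 | h2
      · have h3 := h p hp hkp h2
        have h4 := min_le_left δ ((lam k P - ((P - P / ((k + 1) / 2) : ℕ) : ℝ)) / P)
        have hp0 : (0 : ℝ) < p := by exact_mod_cast hp.pos
        have h5 := mul_le_mul_of_nonneg_right h4 hp0.le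
        linarith
      · rw [h2]
        have h4 := min_le_right δ ((lam k P - ((P - P / ((k + 1) / 2) : ℕ) : ℝ)) / P)
        have h5 := mul_le_mul_of_nonneg_right h4 hP0.le
        rw [div_mul_cancel₀ _ hP0.ne'] at h5
        linarith
    · refine ⟨δ, hδ, ?_⟩
      intro p hp hkp hpP
      rcases Nat.lt_succ_iff_lt_or_eq.1 hpP with h2 | h2
      · exact h p hp hkp h2
      · exact absurd ⟨h2 ▸ hp, h2 ▸ hkp⟩ hP

/-- For every `k ≥ 5` there is a `δ > 0` such that `λ_{k,p} ≥ p - ⌊p / ⌊(k+1)/2⌋⌋ + δ p` for all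
primes `p ≥ k`. -/
theorem result (k : ℕ) (hk : 5 ≤ k) : ∃ δ : ℝ, 0 < δ ∧ ∀ p : ℕ, p.Prime → k ≤ p →
    ((p - p / ((k + 1) / 2) : ℕ) : ℝ) + δ * p ≤ lam k p := by
  obtain ⟨δ, P, hδ, h⟩ := uniform k hk
  obtain ⟨δ', hδ', h'⟩ := finite_part k hk P
  refine ⟨min δ δ', lt_min hδ hδ', ?_⟩
  intro p hp hkp
  have hp0 : (0 : ℝ) < p := by exact_mod_cast hp.pos
  rcases le_or_gt P p with h1 | h1
  · have h3 := h p hp h1
    have h5 := mul_le_mul_of_nonneg_right (min_le_left δ δ') hp0.le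
    linarith
  · have h3 := h' p hp hkp h1
    have h5 := mul_le_mul_of_nonneg_right (min_le_right δ δ') hp0.le
    linarith

end Pool.Agent.Results.MP_b30443_co.IntervalBoundNotSharp
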