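import Mathlib
import Pool.Agent.K6.H42.LR.Final

/-!
# Progression-free sets defined by conditions of low rank and by quadratic equations

Let `p ≥ 3` be prime. For all `k` (in the problem `3 ≤ k ≤ p`) we bound the subsets of `F_p^n` without
`k`-term progressions which are unions of `T` sets, each of which is defined by

* any number of conditions which depend on at most `r` linear forms each (other forms for each
  condition): arbitrary conditions of this kind if `r ≤ q`, or conditions `P(x) ∈ B` on a polynomial
  `P` of degree at most `q`, or polynomial equations of degree at most `q (p - 1)` (for instance the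
  sets decided by decision trees of depth `q` that ask for the values of linear forms);
* any number of polynomial equations of degree at most `2`;
* `m` further conditions `P(x) ∈ B` on arbitrary polynomials of degree at most `d`.

The bound is `3 T p^n exp (m p (d + 1) - n / (12 r² p^q))`. So there is an exponential saving, for
`T ≤ exp (c n)` and `m ≤ c n`, if `r`, `q`, `d` are bounded; and a power of `p` with exponent
`n - n^{1 - o(1)}` is still obtained when `q` is bounded and `r = n^{o(1)}`.

Proof. Greedily choose conditions whose spaces of linear forms are independent on the whole space. If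
many of them are found, the set is small by independence, since each condition fails with probability
at least `p^{-q}`. Otherwise restrict to the cosets of the common kernel of the chosen forms: there the
conditions depend on at most `r - 1` forms each. After at most `r` rounds (and a loss of at most `n / 2`
dimensions) all conditions are void. A set without lines defined by quadratic equations has no
three-term progressions, since a polynomial of degree two with three zeros vanishes; this is also true
for the progressions which satisfy the equations `P = b` of all further conditions along the whole line,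
and the slice rank method applies, with slightly larger degrees.
-/

set_option autoImplicit false

namespace Pool.Agent.Results.MP_b30443_co.LowRankConditions

variable {p n : ℕ}

/-- `A ⊆ F_p^n` contains no nontrivial `k`-term progression `x, x+y, …, x+(k-1)y` with `y ≠ 0`. -/
def APFree (k : ℕ) (A : Set (Fin n → ZMod p)) : Prop :=
  ∀ x y : Fin n → ZMod p, (∀ i : ℕ, i < k → x + i • y ∈ A) → y = 0

/-- A condition of type `(r, q)`: whether `x ∈ S` depends on the values of `r` linear forms at `x`
only; moreover `r ≤ q`, or `S` is given by a condition `P(x) ∈ B` for a polynomial `P` of degree at most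
`q`, or `S` is the zero set of a polynomial of degree at most `q (p - 1)`. -/
def IsCondition (r q : ℕ) (S : Set (Fin n → ZMod p)) : Prop :=
  (∃ (ℓ : (Fin n → ZMod p) →ₗ[ZMod p] (Fin r → ZMod p)) (B : Set (Fin r → ZMod p)),
    S = {x | ℓ x ∈ B}) ∧
  (r ≤ q ∨
    (∃ (P : MvPolynomial (Fin n) (ZMod p)) (B : Set (ZMod p)), P.totalDegree ≤ q ∧
      S = {x | MvPolynomial.eval x P ∈ B}) ∨
    (∃ P : MvPolynomial (Fin n) (ZMod p), P.totalDegree ≤ q * (p - 1) ∧
      S = {x | MvPolynomial.eval x P = 0}))

/-- The set is defined by any number of conditions of type `(r, q)`, any number of equations of degree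
at most `2`, and `m` conditions `P(x) ∈ B` on polynomials of degree at most `d`. -/
def IsPiece (r q m d : ℕ) (A : Set (Fin n → ZMod p)) : Prop :=
  ∃ (𝒮 : Set (Set (Fin n → ZMod p))) (𝒬 : Set (MvPolynomial (Fin n) (ZMod p)))
    (P : Fin m → MvPolynomial (Fin n) (ZMod p)) (B : Fin m → Set (ZMod p)),
    (∀ S ∈ 𝒮, IsCondition r q S) ∧ (∀ Q ∈ 𝒬, Q.totalDegree ≤ 2) ∧
    (∀ l, (P l).totalDegree ≤ d) ∧
    A = {x | (∀ S ∈ 𝒮, x ∈ S) ∧ (∀ Q ∈ 𝒬, MvPolynomial.eval x Q = 0) ∧
      ∀ l, MvPolynomial.eval x (P l) ∈ B l}

open Pool.Agent.K6.H42.LR Pool.Agent.TH360.RS in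
theorem piece_bound [Fact p.Prime] (hp : 3 ≤ p) {k r q m d : ℕ} (hr : 1 ≤ r) (hq : 1 ≤ q)
    {A : Set (Fin n → ZMod p)} (hA : APFree k A) (hP : IsPiece r q m d A) :
    (Nat.card A : ℝ) ≤ (p : ℝ) ^ n *
      (3 * Real.exp (m * p * (d + 1) - n / (12 * (r : ℝ) ^ 2 * (p : ℝ) ^ q))) := by
  obtain ⟨𝒮, 𝒬, P, B, h1, h2, h3, rfl⟩ := hP
  have hfree : LineFree p {x | (∀ S ∈ 𝒮, x ∈ S) ∧ (∀ Q ∈ 𝒬, MvPolynomial.eval x Q = 0) ∧
      ∀ l, MvPolynomial.eval x (P l) ∈ B l} := by
    intro x y hxy
    refine hA x y fun i _ => ?_
    have := hxy (i : ZMod p)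
    rwa [Nat.cast_smul_eq_nsmul] at this
  refine piece (q := q) hp hr hq 𝒮 ?_ ((fun Q => fun x => MvPolynomial.eval x Q) '' 𝒬) ?_
    (fun l x => MvPolynomial.eval x (P l)) (fun l => eval_mem_Pol _ (h3 l)) B _ ?_ hfree
  · intro S hS
    obtain ⟨hdec, h⟩ := h1 S hS
    refine ⟨hdec, ?_⟩
    rcases h with h | ⟨G, C, hG, rfl⟩ | ⟨G, hG, rfl⟩
    · exact zero_of_decided hdec h
    · exact zero_of_poly _ (eval_mem_Pol G hG) C
    · exact ⟨_, eval_mem_Pol G hG, rfl⟩
  · rintro _ ⟨Q, hQ, rfl⟩
    exact eval_mem_Pol Q (h2 Q hQ)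
  · ext x
    constructor
    · rintro ⟨a, b, c⟩
      refine ⟨⟨?_, c⟩, a⟩
      rintro _ ⟨Q, hQ, rfl⟩
      exact b Q hQ
    · rintro ⟨⟨b, c⟩, a⟩
      exact ⟨a, fun Q hQ => b _ ⟨Q, hQ, rfl⟩, c⟩

/-- **Progression-free sets defined by conditions of low rank and by quadratic equations.** Let `p ≥ 3`
be prime, `r, q ≥ 1` and `k` arbitrary. Let `A ⊆ F_p^n` contain no nontrivial `k`-term progression, and let
`A` be the union of `T` sets, each of which is defined by any number of conditions of type `(r, q)`, any
number of polynomial equations of degree at most `2`, and `m` conditions `P(x) ∈ B` on polynomials of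
degree at most `d`. Then `|A| ≤ 3 T p^n exp (m p (d + 1) - n / (12 r² p^q))`. -/
theorem result (p : ℕ) [Fact p.Prime] (hp : 3 ≤ p) (k n r q m d T : ℕ)
    (hr : 1 ≤ r) (hq : 1 ≤ q) (A : Set (Fin n → ZMod p)) (hA : APFree k A)
    (piece : Fin T → Set (Fin n → ZMod p)) (hpiece : ∀ τ, IsPiece r q m d (piece τ))
    (hunion : A = ⋃ τ, piece τ) :
    (Nat.card A : ℝ) ≤ 3 * T * (p : ℝ) ^ n *
      Real.exp (m * p * (d + 1) - n / (12 * (r : ℝ) ^ 2 * (p : ℝ) ^ q)) := by
  classical
  have h1 : ∀ τ, (Nat.card (piece τ) : ℝ) ≤ (p : ℝ) ^ n *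
      (3 * Real.exp (m * p * (d + 1) - n / (12 * (r : ℝ) ^ 2 * (p : ℝ) ^ q))) := by
    intro τ
    refine piece_bound (k := k) hp hr hq (fun x y hxy => hA x y fun i hi => ?_) (hpiece τ)
    rw [hunion]
    exact Set.mem_iUnion.2 ⟨τ, hxy i hi⟩
  have h2 : (Nat.card A : ℝ) ≤ ∑ τ, (Nat.card (piece τ) : ℝ) := by
    have : Nat.card A ≤ ∑ τ, Nat.card (piece τ) := by
      rw [hunion]
      simp only [Nat.card_coe_set_eq]
      have h3 := Set.ncard_iUnion_le_of_fintype piece
      exact h3
    exact_mod_cast this
  refine h2.trans ((Finset.sum_le_sum fun τ _ => h1 τ).trans (le_of_eq ?_))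
  rw [Finset.sum_const, Finset.card_univ, Fintype.card_fin, nsmul_eq_mul]
  ring

end Pool.Agent.Results.MP_b30443_co.LowRankConditions
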