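import Pool.Agent.K6.H67.SR.Main

/-!
# `MP_b30443_co`: progression-free subsets of random subsets of `F_p^n`
-/

set_option autoImplicit false

open Finset Filter Topology

namespace Pool.Agent.Results.MP_b30443_co.RandomSubsets

/-- `A` contains no nontrivial `k`-term arithmetic progression `x, x + y, ..., x + (k - 1) y`,
`y ≠ 0`. -/
def APFree {V : Type*} [AddCommGroup V] (k : ℕ) (A : Finset V) : Prop :=
  ∀ x y : V, y ≠ 0 → ¬ ∀ j < k, x + j • y ∈ A

/-- `r_k(F_p^n)`: the largest size of a subset of `F_p^n` without nontrivial `k`-term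
progression. -/
noncomputable def r (k p n : ℕ) : ℕ :=
  sSup {t | ∃ A : Finset (Fin n → ZMod p), APFree k A ∧ A.card = t}

/-- The largest size of a subset of `R` without nontrivial `k`-term progression. -/
noncomputable def alpha {V : Type*} [AddCommGroup V] (k : ℕ) (R : Finset V) : ℕ :=
  sSup {t | ∃ A : Finset V, A ⊆ R ∧ APFree k A ∧ A.card = t}

/-- The probability that a random subset of `V`, to which each element belongs independently with
probability `ρ`, has the property `Q`. -/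
noncomputable def prob {V : Type*} [Fintype V] (ρ : ℝ) (Q : Finset V → Prop) : ℝ := by
  classical
  exact ∑ R : Finset V, if Q R then ρ ^ R.card * (1 - ρ) ^ (Fintype.card V - R.card) else 0

/-- The growth exponent of the largest `k`-term progression free subset of a random subset of
`F_p^n` of density `p ^ (-s n)`, where `r_k(F_p^n) = p ^ ((1 - κ + o(1)) n)`. -/
noncomputable def g (k : ℕ) (κ s : ℝ) : ℝ := 1 - s - κ * max 0 (1 - ((k : ℝ) - 1) * s)

/-- Let `p` be a prime, `3 ≤ k ≤ p`. There is `κ` with `0 ≤ κ ≤ 1 / k` and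
`lim r_k(F_p^n) ^ (1 / n) = p ^ (1 - κ)` such that, for `0 < ε ≤ 1 / 2`, `n ≥ n₀(k, p, ε)` and
`0 ≤ s ≤ 1 - ε`, the largest progression free subset of a random subset of `F_p^n` of density
`p ^ (-s n)` has between `p ^ ((g(s) - ε) n)` and `p ^ ((g(s) + ε) n)` elements, with probability at
least `1 - p ^ (-ε n / 8)`. -/
theorem result (k p : ℕ) [hp : Fact p.Prime] (hk : 3 ≤ k) (hkp : k ≤ p) :
    ∃ κ : ℝ, 0 ≤ κ ∧ κ ≤ 1 / k ∧
      Tendsto (fun n : ℕ => (r k p n : ℝ) ^ (1 / (n : ℝ))) atTop (𝓝 ((p : ℝ) ^ (1 - κ))) ∧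
      ∀ ε : ℝ, 0 < ε → ε ≤ 1 / 2 → ∃ n₀ : ℕ, ∀ n ≥ n₀, ∀ s : ℝ, 0 ≤ s → s ≤ 1 - ε →
        1 - (p : ℝ) ^ (-(ε / 8 * n)) ≤
          prob ((p : ℝ) ^ (-(s * n))) (fun R : Finset (Fin n → ZMod p) =>
            (p : ℝ) ^ ((g k κ s - ε) * n) ≤ alpha k R ∧
              (alpha k R : ℝ) ≤ (p : ℝ) ^ ((g k κ s + ε) * n)) :=
  Pool.Agent.K6.H67.SR.main k p hk hkp

end Pool.Agent.Results.MP_b30443_co.RandomSubsets
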